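import Pool.Agent.H486.OA.Stm1

/-!
# Asymptotic optimal lifting: two cosets
-/

set_option autoImplicit false

open UpperHalfPlane MeasureTheory Metric ModularGroup CongruenceSubgroup
open scoped MatrixGroups ENNReal Modular Topology NNReal ComplexConjugate Real

namespace Pool.Agent.H894.OA

open Pool.Agent.H486.OA
open Pool.Agent.H369R2 Pool.Agent.N799.DT Pool.Agent.N799.OL

noncomputable section

/-! ### The operators -/

lemma AL_oneB (N : ℕ) {R : ℝ} (hR : 0 < R) : AL N R (oneB N) = oneB N := by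
  ext z
  rw [AL_apply]
  show Av R (fun _ : ℍ => (1 : ℂ)) z = 1
  unfold Av
  rw [setIntegral_const, Measure.real, vol_eq, ENNReal.toReal_ofReal (bv_nonneg _), smul_smul,
    inv_mul_cancel₀ (bv_pos hR).ne', one_smul]

variable {N : ℕ} [NeZero N]

lemma inner_one (v : BN N) : inner ℂ (oneB N) v = ∫ z, (v : ℍ → ℂ) z ∂(nu N) := by
  rw [BN.inner_def]
  refine integral_congr_ae (.of_forall fun z => ?_)
  show conj (1 : ℂ) * (v : ℍ → ℂ) z = _
  simp

lemma polar {S : ℝ} (hS : 0 < S) (u w : BN N) :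
    4 * (inner ℂ w (AL N S u)).re = (inner ℂ (AL N S (w + u)) (w + u)).re -
      (inner ℂ (AL N S (w - u)) (w - u)).re := by
  have h1 : (inner ℂ (AL N S u) w).re = (inner ℂ w (AL N S u)).re := by
    rw [← inner_conj_symm, Complex.conj_re]
  have h2 : (inner ℂ (AL N S w) u).re = (inner ℂ w (AL N S u)).re := by
    rw [AL_symm hS]
  rw [map_add, map_sub]
  simp only [inner_add_left, inner_add_right, inner_sub_left, inner_sub_right, Complex.add_re,
    Complex.sub_re, h1, h2]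
  ring

lemma para (u w : BN N) : ‖w + u‖ ^ 2 + ‖w - u‖ ^ 2 = 2 * (‖w‖ ^ 2 + ‖u‖ ^ 2) := by
  have h := parallelogram_law_with_norm ℂ w u
  nlinarith [h]

/-- the bound for two functions -/
lemma ebound {c C : ℝ}
    (hs : ∀ u : BN N, ∫ z, (u : ℍ → ℂ) z ∂(nu N) = 0 → ∀ R R0 : ℝ, 2 ≤ R0 →
      (2 * R0 ≤ R → |(inner ℂ (AL N R u) u).re| ≤ C * (1 + R) *
        (Real.exp (-(c * (R - 2 * R0))) * ‖AL N R0 u‖ ^ 2 + Real.exp (-(R / 2)) * ‖u‖ ^ 2)))
    {u w : BN N} (hu : inner ℂ (oneB N) u = 0) (hw : inner ℂ (oneB N) w = 0) {S R0 : ℝ}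
    (hR0 : 2 ≤ R0) (hS : 2 * R0 ≤ S) :
    |(inner ℂ w (AL N S u)).re| ≤ C / 2 * (1 + S) *
      (Real.exp (-(c * (S - 2 * R0))) * (‖AL N R0 w‖ ^ 2 + ‖AL N R0 u‖ ^ 2) +
        Real.exp (-(S / 2)) * (‖w‖ ^ 2 + ‖u‖ ^ 2)) := by
  have h1 := hs (w + u) (by rw [← inner_one, inner_add_right, hu, hw, add_zero]) S R0 hR0 hS
  have h2 := hs (w - u) (by rw [← inner_one, inner_sub_right, hu, hw, sub_zero]) S R0 hR0 hS
  have h3 := polar (N := N) (by linarith : 0 < S) u w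
  have h4 := para u w
  have h5 := para (AL N R0 u) (AL N R0 w)
  rw [← map_add, ← map_sub] at h5
  have h6 : |4 * (inner ℂ w (AL N S u)).re| ≤
      |(inner ℂ (AL N S (w + u)) (w + u)).re| + |(inner ℂ (AL N S (w - u)) (w - u)).re| := by
    rw [h3]
    exact abs_sub _ _
  rw [abs_mul, abs_of_pos (by norm_num : (0 : ℝ) < 4)] at h6
  have h7 : C * (1 + S) * (Real.exp (-(c * (S - 2 * R0))) * ‖AL N R0 (w + u)‖ ^ 2 +
      Real.exp (-(S / 2)) * ‖w + u‖ ^ 2) + C * (1 + S) * (Real.exp (-(c * (S - 2 * R0))) *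
      ‖AL N R0 (w - u)‖ ^ 2 + Real.exp (-(S / 2)) * ‖w - u‖ ^ 2) = C * (1 + S) *
      (Real.exp (-(c * (S - 2 * R0))) * (2 * (‖AL N R0 w‖ ^ 2 + ‖AL N R0 u‖ ^ 2)) +
        Real.exp (-(S / 2)) * (2 * (‖w‖ ^ 2 + ‖u‖ ^ 2))) := by
    rw [← h4, ← h5]
    ring
  linarith

/-! ### Elementary inequalities -/

lemma cosh_up {R h : ℝ} (h0 : 0 ≤ h) (h1 : h ≤ 1 / 2) :
    Real.cosh (R + h) - Real.cosh R ≤ h * Real.exp R := by
  have e1 : Real.exp h ≤ 1 + 2 * h := by
    have e2 : 1 - h ≤ Real.exp (-h) := by linarith [Real.add_one_le_exp (-h)]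
    have e3 : Real.exp h * Real.exp (-h) = 1 := by rw [← Real.exp_add]; simp
    have e4 : 0 < Real.exp h := Real.exp_pos h
    have e5 : Real.exp h * (1 - h) ≤ Real.exp h * Real.exp (-h) :=
      mul_le_mul_of_nonneg_left e2 e4.le
    rw [e3] at e5
    have e6 : 1 ≤ (1 + 2 * h) * (1 - h) := by nlinarith
    by_contra e7
    push Not at e7
    have e8 : (1 + 2 * h) * (1 - h) < Real.exp h * (1 - h) :=
      mul_lt_mul_of_pos_right e7 (by linarith)
    linarith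
  rw [Real.cosh_eq, Real.cosh_eq, Real.exp_add]
  have e2 : Real.exp (-(R + h)) ≤ Real.exp (-R) := Real.exp_le_exp.2 (by linarith)
  have e3 : 0 < Real.exp R := Real.exp_pos R
  nlinarith

lemma cosh_down {R h : ℝ} (h0 : 0 ≤ h) :
    Real.cosh R - Real.cosh (R - h) ≤ h * Real.exp R := by
  have e1 : 1 - h ≤ Real.exp (-h) := by linarith [Real.add_one_le_exp (-h)]
  have e0 : Real.exp (R - h) = Real.exp R * Real.exp (-h) := by rw [← Real.exp_add]; ring_nf
  rw [Real.cosh_eq, Real.cosh_eq, e0]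
  have e2 : Real.exp (-R) ≤ Real.exp (-(R - h)) := Real.exp_le_exp.2 (by linarith)
  have e3 : 0 < Real.exp R := Real.exp_pos R
  nlinarith

lemma exp_half : Real.exp (1 / 2) ≤ 2 := by
  have h1 : Real.exp (1 / 2) ^ 2 = Real.exp 1 := by
    rw [← Real.exp_nat_mul]
    norm_num
  have h2 := Real.exp_one_lt_d9
  have h3 := Real.exp_pos (1 / 2)
  nlinarith

lemma bv_small (hb : S_bv) {r : ℝ} (hr : 0 < r) : 3 * r ^ 2 ≤ bv r := by
  rw [hb r hr.le]
  have h1 : Real.cosh r = 1 + 2 * Real.sinh (r / 2) ^ 2 := by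
    have h2 : r = 2 * (r / 2) := by ring
    conv_lhs => rw [h2, Real.cosh_two_mul, Real.cosh_sq]
    ring
  have h3 : r / 2 ≤ Real.sinh (r / 2) := Real.self_le_sinh_iff.2 (by linarith)
  have h4 : (r / 2) ^ 2 ≤ Real.sinh (r / 2) ^ 2 := pow_le_pow_left₀ (by linarith) h3 2
  have h5 := Real.pi_gt_three
  rw [h1]
  nlinarith [sq_nonneg r]

lemma bv_large (hb : S_bv) {R S : ℝ} (hS0 : 0 ≤ S) (hS : S ≤ R + 1 / 2) :
    bv S ≤ 13 * Real.exp R := by
  rw [hb S hS0]
  have h1 : Real.cosh S ≤ Real.exp S := by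
    rw [Real.cosh_eq]
    have : Real.exp (-S) ≤ Real.exp S := Real.exp_le_exp.2 (by linarith)
    linarith
  have h2 : Real.exp S ≤ 2 * Real.exp R := by
    calc Real.exp S ≤ Real.exp (R + 1 / 2) := Real.exp_le_exp.2 hS
      _ = Real.exp (1 / 2) * Real.exp R := by rw [← Real.exp_add]; ring_nf
      _ ≤ _ := mul_le_mul_of_nonneg_right exp_half (Real.exp_pos R).le
  have h3 := Real.pi_lt_d2
  have h4 := Real.pi_pos
  have h5 := Real.exp_pos R
  have h6 : 0 ≤ Real.cosh S - 1 := by linarith [Real.one_le_cosh S]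
  calc 2 * π * (Real.cosh S - 1) ≤ 2 * π * (2 * Real.exp R) := by
        apply mul_le_mul_of_nonneg_left _ (by positivity)
        linarith
    _ ≤ _ := by nlinarith

lemma last {e p R P Q C a v : ℝ} (he : 0 ≤ e) (hp : 0 ≤ p) (hR : 0 ≤ R) (hP : 0 ≤ P)
    (hQ : 0 ≤ Q) (hC : 0 ≤ C) (ha : 0 ≤ a) (hv : 0 ≤ v) :
    24 * (e * p) + e * (1 + R) * (13 * C) * (a * P + 2 * v * Q) ≤
      (24 + 13 * C * (a + 2 * v)) * e * (p + (1 + R) * (P + Q)) := by
  have q3 : (24 + 13 * C * (a + 2 * v)) * e * (p + (1 + R) * (P + Q)) -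
      (24 * (e * p) + e * (1 + R) * (13 * C) * (a * P + 2 * v * Q)) =
      e * (13 * C * (a + 2 * v) * p + (1 + R) * ((24 + 13 * C * (2 * v)) * P +
        (24 + 13 * C * a) * Q)) := by ring
  have q4 : 0 ≤ e * (13 * C * (a + 2 * v) * p + (1 + R) * ((24 + 13 * C * (2 * v)) * P +
        (24 + 13 * C * a) * Q)) := by positivity
  linarith

/-! ### The theorem -/

theorem t21 (hs : S_spec) (hv : S_vf) (hc : S_cmp) (hw : S_sand) (hb : S_bv) (hf : S_fd) :
    S_F2 := by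
  obtain ⟨c, C0, hc0, hC0, hs⟩ := hs
  obtain ⟨Cv, hCv, hv⟩ := hv
  obtain ⟨Cc, hCc, hcm⟩ := hc
  refine ⟨c, 24 + 13 * C0 * (Real.exp (5 * c) * Cc + 2 * Cv), hc0, by positivity, ?_⟩
  intro N hNz Γ hΓ x y r R hr hr4 hR
  have hfi : Γ.FiniteIndex := Subgroup.finiteIndex_of_le hΓ
  obtain ⟨ρ, hρ⟩ : ∃ ρ : ℝ, ρ = ((Gamma N).relIndex Γ : ℝ) := ⟨_, rfl⟩
  obtain ⟨n, hn⟩ : ∃ n : ℝ, n = (Γ.index : ℝ) := ⟨_, rfl⟩
  have hn1 : 1 ≤ n := by
    rw [hn]; exact_mod_cast Nat.pos_of_ne_zero hfi.index_ne_zero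
  have hidx : (Gamma N).relIndex Γ * Γ.index = (Gamma N).index := Subgroup.relIndex_mul_index hΓ
  have hρ0 : 0 < ρ := by
    rw [hρ]
    have : (Gamma N).index ≠ 0 := Subgroup.FiniteIndex.index_ne_zero
    rw [← hidx] at this
    exact_mod_cast Nat.pos_of_ne_zero (left_ne_zero_of_mul this)
  have hn0 : 0 < n := by linarith
  have hπ := Real.pi_pos
  rw [← hn] at hR ⊢
  have hlog : 0 ≤ Real.log n := Real.log_nonneg hn1
  have hRpos : 0 < R := by linarith
  have hM : ((nu N) Set.univ).toReal = n * ρ * (π / 3) := by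
    rw [nu_univ N (NeZero.ne N), ENNReal.toReal_mul, ← hidx, hf]
    push_cast
    rw [ENNReal.toReal_mul, ENNReal.toReal_natCast, ENNReal.toReal_natCast, hρ, hn]
    ring
  have honeint : inner ℂ (oneB N) (oneB N) = ((n * ρ * (π / 3) : ℝ) : ℂ) := by
    rw [inner_one]
    show ∫ z : ℍ, (1 : ℂ) ∂(nu N) = _
    rw [integral_const, Measure.real, hM]
    simp
  obtain ⟨hv1, hv2, hv3⟩ := hv N hNz Γ hΓ r hr (by linarith)
  obtain ⟨m, hm⟩ : ∃ m : ℝ, m = 6 / (n * π) := ⟨_, rfl⟩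
  -- the functions
  obtain ⟨v, hvx⟩ := hv1 x
  obtain ⟨w, hwy⟩ := hv1 y
  have hbr := bv_small hb hr
  have hbr0 : 0 < bv r := lt_of_lt_of_le (by positivity) hbr
  -- properties of the mean free part
  have key : ∀ (x' : SL(2, ℤ) ⧸ Γ) (u : BN N), IsV N Γ r x' u →
      inner ℂ (oneB N) (u - (m : ℂ) • oneB N) = 0 ∧
      ‖u - (m : ℂ) • oneB N‖ ^ 2 ≤ Cv * ρ * r⁻¹ ^ 2 ∧
      ‖AL N (Real.log n + 2) (u - (m : ℂ) • oneB N)‖ ^ 2 ≤ Cc * (Lx N Γ x' * (2 * ρ)) := by
    intro x' u hu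
    obtain ⟨k1, k2⟩ := hv2 x' u hu
    rw [← hρ] at k2
    have k0 : inner ℂ (oneB N) u = ((2 * ρ : ℝ) : ℂ) := by
      rw [inner_one, k1, hρ]
      push_cast
      ring
    have k3 : inner ℂ (oneB N) (u - (m : ℂ) • oneB N) = 0 := by
      rw [inner_sub_right, inner_smul_right, honeint, k0, hm, ← Complex.ofReal_mul,
        ← Complex.ofReal_sub]
      norm_cast
      field_simp
      ring
    refine ⟨k3, ?_, ?_⟩
    · refine (proj_norm u m k3).trans (k2.trans ?_)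
      have k4 : (bv r)⁻¹ ≤ r⁻¹ ^ 2 := by
        rw [inv_pow]
        apply inv_anti₀ (by positivity)
        nlinarith [sq_nonneg r]
      rw [div_eq_mul_inv]
      exact mul_le_mul_of_nonneg_left k4 (by positivity)
    · have k5 : AL N (Real.log n + 2) (u - (m : ℂ) • oneB N) =
          AL N (Real.log n + 2) u - (m : ℂ) • oneB N := by
        rw [map_sub, map_smul, AL_oneB N (by linarith)]
      have k6 : inner ℂ (oneB N) (AL N (Real.log n + 2) u - (m : ℂ) • oneB N) = 0 := by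
        rw [← k5, ← AL_symm (by linarith), AL_oneB N (by linarith), k3]
      rw [k5]
      refine (proj_norm _ m k6).trans ?_
      have k7 := hcm N hNz Γ hΓ r hr hr4 (Real.log n + 2) (by linarith) x' u hu
      refine k7.trans (le_of_eq ?_)
      rw [Lx, ← hρ, ← hn, div_mul_cancel₀ _ (by positivity)]
      have k8 : Real.log n + 2 + 1 = Real.log n + 3 := by ring
      rw [k8]
  obtain ⟨kv1, kv2, kv3⟩ := key x v hvx
  obtain ⟨kw1, kw2, kw3⟩ := key y w hwy
  have hLx0 : 0 ≤ Lx N Γ x := by unfold Lx; positivity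
  have hLy0 : 0 ≤ Lx N Γ y := by unfold Lx; positivity
  have hw0 : inner ℂ w (oneB N) = ((2 * ρ : ℝ) : ℂ) := by
    have k0 : inner ℂ (oneB N) w = ((2 * ρ : ℝ) : ℂ) := by
      rw [inner_one, (hv2 y w hwy).1, hρ]
      push_cast
      ring
    rw [← inner_conj_symm, k0, Complex.conj_ofReal]
  -- decomposition of the inner products
  have dec : ∀ S : ℝ, 0 < S → inner ℂ w (AL N S v) =
      inner ℂ (w - (m : ℂ) • oneB N) (AL N S (v - (m : ℂ) • oneB N)) + ((2 * ρ * m : ℝ) : ℂ) := by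
    intro S hS
    have d1 : inner ℂ (oneB N) (AL N S (v - (m : ℂ) • oneB N)) = 0 := by
      rw [← AL_symm hS, AL_oneB N hS, kv1]
    rw [inner_sub_left, inner_smul_left, d1, mul_zero, sub_zero, map_sub, map_smul, AL_oneB N hS,
      inner_sub_right, inner_smul_right, hw0]
    push_cast
    ring
  -- the bound for the error
  obtain ⟨ex, hex⟩ : ∃ ex : ℝ, ex = Real.exp (-(c * (R - 2 * Real.log n))) := ⟨_, rfl⟩
  obtain ⟨ey, hey⟩ : ∃ ey : ℝ, ey = Real.exp (-(R / 2)) := ⟨_, rfl⟩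
  have hex0 : 0 < ex := by rw [hex]; exact Real.exp_pos _
  have hey0 : 0 < ey := by rw [hey]; exact Real.exp_pos _
  rw [← hex, ← hey]
  obtain ⟨B, hB⟩ : ∃ B : ℝ, B = Real.exp R * (1 + R) * (13 * C0) *
      (Real.exp (5 * c) * Cc * (ex * (Lx N Γ x + Lx N Γ y)) + 2 * Cv * (r⁻¹ ^ 2 * ey)) := ⟨_, rfl⟩
  have err : ∀ S : ℝ, R - 1 / 2 ≤ S → S ≤ R + 1 / 2 →
      bv S * |(inner ℂ (w - (m : ℂ) • oneB N) (AL N S (v - (m : ℂ) • oneB N))).re| ≤
        2 * ρ * B := by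
    intro S hS1 hS2
    have hS0 : 0 ≤ S := by linarith
    have e1 := ebound (N := N) (fun u hu R R0 hR0 => (hs N hNz u hu R R0 hR0).2) kv1 kw1
      (by linarith : 2 ≤ Real.log n + 2) (by linarith : 2 * (Real.log n + 2) ≤ S)
    have e2 : Real.exp (-(c * (S - 2 * (Real.log n + 2)))) ≤ Real.exp (5 * c) * ex := by
      rw [hex, ← Real.exp_add]
      apply Real.exp_le_exp.2
      nlinarith
    have e3 : Real.exp (-(S / 2)) ≤ 2 * ey := by
      calc Real.exp (-(S / 2)) ≤ Real.exp (1 / 2 + -(R / 2)) := Real.exp_le_exp.2 (by linarith)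
        _ = Real.exp (1 / 2) * ey := by rw [Real.exp_add, hey]
        _ ≤ _ := mul_le_mul_of_nonneg_right exp_half hey0.le
    have e4 : 1 + S ≤ 2 * (1 + R) := by linarith
    have e5 := bv_large hb hS0 hS2
    have e6 : |(inner ℂ (w - (m : ℂ) • oneB N) (AL N S (v - (m : ℂ) • oneB N))).re| ≤
        C0 / 2 * (2 * (1 + R)) * (Real.exp (5 * c) * ex * (Cc * (Lx N Γ y * (2 * ρ)) +
          Cc * (Lx N Γ x * (2 * ρ))) + 2 * ey * (Cv * ρ * r⁻¹ ^ 2 + Cv * ρ * r⁻¹ ^ 2)) := by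
      refine e1.trans ?_
      gcongr
    calc bv S * |(inner ℂ (w - (m : ℂ) • oneB N) (AL N S (v - (m : ℂ) • oneB N))).re| ≤
          (13 * Real.exp R) * (C0 / 2 * (2 * (1 + R)) * (Real.exp (5 * c) * ex *
            (Cc * (Lx N Γ y * (2 * ρ)) + Cc * (Lx N Γ x * (2 * ρ))) +
              2 * ey * (Cv * ρ * r⁻¹ ^ 2 + Cv * ρ * r⁻¹ ^ 2))) :=
          mul_le_mul e5 e6 (abs_nonneg _) (by positivity)
      _ = 2 * ρ * B := by
          rw [hB]
          ring
  -- the sandwich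
  obtain ⟨t1, ht1, ht2, -⟩ := hw N hNz Γ hΓ r (R + 2 * r) hr (by linarith) x y v w hvx hwy
  obtain ⟨t3, ht3, -, ht4⟩ := hw N hNz Γ hΓ r (R - 2 * r) hr (by linarith) x y v w hvx hwy
  rw [← hρ] at ht2 ht4
  have g1 : R + 2 * r - 2 * r = R := by ring
  have g2 : R - 2 * r + 2 * r = R := by ring
  rw [g1] at ht2
  rw [g2] at ht4
  have e1 := err (R + 2 * r) (by linarith) (by linarith)
  have e2 := err (R - 2 * r) (by linarith) (by linarith)
  rw [dec _ (by linarith)] at ht1 ht3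
  have f1 : t1 = (inner ℂ (w - (m : ℂ) • oneB N)
      (AL N (R + 2 * r) (v - (m : ℂ) • oneB N))).re + 2 * ρ * m := by
    have := congrArg Complex.re ht1
    rw [Complex.add_re, Complex.ofReal_re, Complex.ofReal_re] at this
    exact this.symm
  have f3 : t3 = (inner ℂ (w - (m : ℂ) • oneB N)
      (AL N (R - 2 * r) (v - (m : ℂ) • oneB N))).re + 2 * ρ * m := by
    have := congrArg Complex.re ht3
    rw [Complex.add_re, Complex.ofReal_re, Complex.ofReal_re] at this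
    exact this.symm
  obtain ⟨i1, hi1⟩ : ∃ i1 : ℝ, i1 = (inner ℂ (w - (m : ℂ) • oneB N)
      (AL N (R + 2 * r) (v - (m : ℂ) • oneB N))).re := ⟨_, rfl⟩
  obtain ⟨i3, hi3⟩ : ∃ i3 : ℝ, i3 = (inner ℂ (w - (m : ℂ) • oneB N)
      (AL N (R - 2 * r) (v - (m : ℂ) • oneB N))).re := ⟨_, rfl⟩
  rw [← hi1] at e1 f1
  rw [← hi3] at e2 f3
  have main : ∀ S : ℝ, 0 ≤ S → bv S * (2 * ρ * m) = 2 * ρ * (12 * (Real.cosh S - 1) / n) := by
    intro S hS
    rw [hb S hS, hm]
    field_simp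
    ring
  have a1 := main (R + 2 * r) (by linarith)
  have a3 := main (R - 2 * r) (by linarith)
  have hbv1 := bv_nonneg (R + 2 * r)
  have hbv3 := bv_nonneg (R - 2 * r)
  have u1 : mR Γ R x y ≤ 12 * (Real.cosh (R + 2 * r) - 1) / n + B := by
    have s1 : bv (R + 2 * r) * t1 ≤ 2 * ρ * (12 * (Real.cosh (R + 2 * r) - 1) / n) + 2 * ρ * B := by
      rw [f1, mul_add, a1]
      have := mul_le_mul_of_nonneg_left (le_abs_self i1) hbv1
      linarith
    have s2 : 2 * ρ * mR Γ R x y ≤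
        2 * ρ * (12 * (Real.cosh (R + 2 * r) - 1) / n + B) := by linarith
    exact le_of_mul_le_mul_left s2 (by positivity)
  have u3 : 12 * (Real.cosh (R - 2 * r) - 1) / n - B ≤ mR Γ R x y := by
    have s1 : 2 * ρ * (12 * (Real.cosh (R - 2 * r) - 1) / n) - 2 * ρ * B ≤
        bv (R - 2 * r) * t3 := by
      rw [f3, mul_add, a3]
      have := mul_le_mul_of_nonneg_left (neg_abs_le i3) hbv3
      linarith
    have s2 : 2 * ρ * (12 * (Real.cosh (R - 2 * r) - 1) / n - B) ≤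
        2 * ρ * mR Γ R x y := by linarith
    exact le_of_mul_le_mul_left s2 (by positivity)
  have v1 := cosh_up (R := R) (by linarith : 0 ≤ 2 * r) (by linarith)
  have v3 := cosh_down (R := R) (by linarith : 0 ≤ 2 * r)
  have hE := Real.exp_pos R
  have w1 : 12 * (Real.cosh (R + 2 * r) - 1) / n ≤
      12 * (Real.cosh R - 1) / n + 24 * (Real.exp R * (r / n)) := by
    have : 12 * (Real.cosh R - 1) / n + 24 * (Real.exp R * (r / n)) =
        (12 * (Real.cosh R - 1) + 24 * (Real.exp R * r)) / n := by ring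
    rw [this]
    gcongr
    linarith
  have w3 : 12 * (Real.cosh R - 1) / n - 24 * (Real.exp R * (r / n)) ≤
      12 * (Real.cosh (R - 2 * r) - 1) / n := by
    have : 12 * (Real.cosh R - 1) / n - 24 * (Real.exp R * (r / n)) =
        (12 * (Real.cosh R - 1) - 24 * (Real.exp R * r)) / n := by ring
    rw [this]
    gcongr
    linarith
  have fin : 24 * (Real.exp R * (r / n)) + B ≤
      (24 + 13 * C0 * (Real.exp (5 * c) * Cc + 2 * Cv)) * Real.exp R * (r / n + (1 + R) *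
        (ex * (Lx N Γ x + Lx N Γ y) + r⁻¹ ^ 2 * ey)) := by
    rw [hB]
    exact last hE.le (by positivity) hRpos.le (by positivity) (by positivity) (by positivity)
      (by positivity) (by positivity)
  rw [abs_le]
  constructor <;> linarith

end

end Pool.Agent.H894.OA
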